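import Mathlib

namespace Pool.Agent.Lib.MP_7c3aa9_co

/-- `G` has a tree decomposition of width at most `w`. -/
def TwLE {V : Type} (G : SimpleGraph V) (w : ℕ) : Prop :=
  ∃ (m : ℕ) (T : SimpleGraph (Fin m)) (B : Fin m → Finset V),
    T.IsTree ∧ (∀ i, (B i).card ≤ w + 1) ∧ (∀ v, ∃ i, v ∈ B i) ∧
    (∀ u v, G.Adj u v → ∃ i, u ∈ B i ∧ v ∈ B i) ∧ ∀ v, (T.induce {i | v ∈ B i}).Connected

/-- The expansion: vertices are the vertices and the edges of `G`, and each edge `e` gives the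
triple consisting of its two ends and the new vertex `e`. -/
def expansion {V : Type} (G : SimpleGraph V) : Set (Set (V ⊕ G.edgeSet)) :=
  {t | ∃ e : G.edgeSet, t = Sum.inl '' {v | v ∈ (e : Sym2 V)} ∪ {Sum.inr e}}

/-- `H` contains a copy of the hypergraph `F`. -/
def HasCopy {W : Type} {n : ℕ} (F : Set (Set W)) (H : Finset (Finset (Fin n))) : Prop :=
  ∃ φ : W → Fin n, Function.Injective φ ∧ ∀ t ∈ F, ∃ h ∈ H, (h : Set (Fin n)) = φ '' t

/-- The Turan number: the largest number of triples on `n` points with no copy of `F`. -/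
noncomputable def ex3 {W : Type} (n : ℕ) (F : Set (Set W)) : ℕ :=
  sSup {c | ∃ H : Finset (Finset (Fin n)), (∀ h ∈ H, h.card = 3) ∧ ¬ HasCopy F H ∧ H.card = c}

/-- The least size of a crosscut, a vertex set meeting every edge in exactly one vertex. -/
noncomputable def sigma {W : Type} (F : Set (Set W)) : ℕ :=
  sInf {c | ∃ S : Finset W, (∀ t ∈ F, ∃! x, x ∈ S ∧ x ∈ t) ∧ S.card = c}

end Pool.Agent.Lib.MP_7c3aa9_co
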