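import Pool.Agent.Lib.MP_7c3aa9_co.Main
import Pool.Agent.Lib.MP_7c3aa9_co.Defs

/-! A family of graphs of treewidth two with crosscut number at most five. -/

open Filter SimpleGraph

namespace Pool.Agent.Lib.MP_7c3aa9_co

/-- The graph joining each nonzero point to its parent. -/
def parG {n : ℕ} (par : ℕ → ℕ) : SimpleGraph (Fin (n + 1)) where
  Adj u v := (u.val ≠ 0 ∧ par u = v ∧ par u < u) ∨ (v.val ≠ 0 ∧ par v = u ∧ par v < v)
  symm := ⟨fun _ _ h => h.symm⟩
  loopless := ⟨fun u h => by omega⟩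

theorem parG_isTree {n : ℕ} (par : ℕ → ℕ) (h : ∀ u, u ≠ 0 → par u < u) :
    (parG (n := n) par).IsTree := by
  rw [isTree_iff_connected_and_card]
  constructor
  · have hreach : ∀ (k : ℕ) (x : Fin (n + 1)), x.val = k → (parG par).Reachable x 0 := by
      intro k
      induction k using Nat.strong_induction_on with
      | _ k ih =>
        intro x hx
        by_cases h0 : x.val = 0
        · rw [show x = 0 from Fin.ext h0]
        · have h1 := h x h0
          have h2 : (parG par).Adj x ⟨par x, by omega⟩ := Or.inl ⟨h0, rfl, h1⟩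
          exact h2.reachable.trans (ih (par x) (by omega) _ rfl)
    exact ⟨fun x y => (hreach _ x rfl).trans (hreach _ y rfl).symm⟩
  · let f : Fin n → Sym2 (Fin (n + 1)) := fun i =>
      s(i.succ, ⟨par (i.val + 1), by have := h (i.val + 1) (by omega); omega⟩)
    have hf : Function.Injective f := by
      intro i j hij
      have h1 := h (i.val + 1) (by omega)
      have h2 := h (j.val + 1) (by omega)
      simp only [f, Sym2.eq_iff, Fin.ext_iff, Fin.val_succ] at hij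
      exact Fin.ext (by omega)
    have hr : (parG par).edgeSet = Set.range f := by
      ext e
      induction e using Sym2.ind with
      | h u v =>
        rw [mem_edgeSet]
        constructor
        · rintro (⟨h1, h2, -⟩ | ⟨h1, h2, -⟩)
          · refine ⟨⟨u.val - 1, by omega⟩, ?_⟩
            simp only [f, Sym2.eq_iff, Fin.ext_iff, Fin.val_succ]
            rw [show u.val - 1 + 1 = u.val by omega]
            exact Or.inl ⟨rfl, h2⟩
          · refine ⟨⟨v.val - 1, by omega⟩, ?_⟩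
            simp only [f, Sym2.eq_iff, Fin.ext_iff, Fin.val_succ]
            rw [show v.val - 1 + 1 = v.val by omega]
            exact Or.inr ⟨rfl, h2⟩
        · rintro ⟨i, hi⟩
          have h1 := h (i.val + 1) (by omega)
          simp only [f, Sym2.eq_iff, Fin.ext_iff, Fin.val_succ] at hi
          rcases hi with ⟨h2, h3⟩ | ⟨h2, h3⟩
          · exact Or.inl ⟨by omega, by rw [← h2]; exact h3, by rw [← h2]; exact h1⟩
          · exact Or.inr ⟨by omega, by rw [← h2]; exact h3, by rw [← h2]; exact h1⟩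
    rw [hr, Nat.card_range_of_injective hf]
    simp

/-- Directed edge list. -/
def gA (t u v : ℕ) : Prop :=
  (u = 0 ∧ v = 1) ∨ (u = 0 ∧ v = 2) ∨ (u = 1 ∧ v = 2) ∨ (u = 0 ∧ v = 3) ∨ (u = 1 ∧ v = 3) ∨
    (u = 2 ∧ v = 4) ∨ (u = 3 ∧ 5 ≤ v ∧ v < 5 + t) ∨ (u = 4 ∧ 5 + t ≤ v)

/-- Triangle 0, 1, 2; vertex 3 joined to 0 and 1; vertex 4 joined to 2; `t` leaves at each of 3
and 4. -/
def Gt (t : ℕ) : SimpleGraph (Fin (2 * t + 5)) where
  Adj u v := gA t u v ∨ gA t v u
  symm := ⟨fun _ _ h => h.symm⟩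
  loopless := ⟨fun u h => by unfold gA at h; omega⟩

theorem Gt_adj {t : ℕ} {u v : Fin (2 * t + 5)} : (Gt t).Adj u v ↔ gA t u v ∨ gA t v u := Iff.rfl

/-- A vertex given by its number. -/
def vx (t i : ℕ) (h : i < 2 * t + 5) : Fin (2 * t + 5) := ⟨i, h⟩

/-- One of the five core vertices. -/
def vc (t : ℕ) (i : Fin 5) : Fin (2 * t + 5) := vx t i.val (by omega)

theorem vx_val {t i : ℕ} (h : i < 2 * t + 5) : (vx t i h).val = i := rfl

theorem vc_val {t : ℕ} : (vc t 0).val = 0 ∧ (vc t 1).val = 1 ∧ (vc t 2).val = 2 ∧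
    (vc t 3).val = 3 ∧ (vc t 4).val = 4 := ⟨rfl, rfl, rfl, rfl, rfl⟩

theorem Gt_connected (t : ℕ) : (Gt t).Connected := by
  have h2 : ∀ x : Fin (2 * t + 5), x.val < 5 → (Gt t).Reachable x (vc t 2) := by
    intro x hx
    by_cases h : x.val = 2
    · rw [show x = vc t 2 from Fin.ext h]
    by_cases h3 : x.val = 3
    · have a1 : (Gt t).Adj x (vc t 0) := by simp [Gt_adj, gA, vc_val]; omega
      have a2 : (Gt t).Adj (vc t 0) (vc t 2) := by simp [Gt_adj, gA, vc_val]
      exact a1.reachable.trans a2.reachable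
    · have a1 : (Gt t).Adj x (vc t 2) := by
        have h5 : x.val = 0 ∨ x.val = 1 ∨ x.val = 4 := by omega
        rcases h5 with h5 | h5 | h5 <;> simp [Gt_adj, gA, vc_val, h5]
      exact a1.reachable
  have hreach : ∀ x : Fin (2 * t + 5), (Gt t).Reachable x (vc t 2) := by
    intro x
    by_cases h : x.val < 5
    · exact h2 x h
    by_cases h' : x.val < 5 + t
    · have a1 : (Gt t).Adj x (vc t 3) := by simp [Gt_adj, gA, vc_val]; omega
      exact a1.reachable.trans (h2 _ (by simp [vc_val]))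
    · have a1 : (Gt t).Adj x (vc t 4) := by simp [Gt_adj, gA, vc_val]; omega
      exact a1.reachable.trans (h2 _ (by simp [vc_val]))
  have : Nonempty (Fin (2 * t + 5)) := ⟨vc t 0⟩
  exact ⟨fun x y => (hreach x).trans (hreach y).symm⟩

/-- Parent function of the decomposition tree. -/
def tp (t i : ℕ) : ℕ := if i ≤ 2 then 0 else if i < 3 + t then 1 else 2

/-- The bags. -/
def bg (t : ℕ) (i : Fin (2 * t + 2 + 1)) : Finset (Fin (2 * t + 5)) :=
  if i.val = 0 then {vc t 0, vc t 1, vc t 2} else if i.val = 1 then {vc t 0, vc t 1, vc t 3}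
  else if i.val = 2 then {vc t 2, vc t 4}
  else if i.val < 3 + t then {vc t 3, vx t (i.val + 2) (by omega)}
  else {vc t 4, vx t (i.val + 2) (by omega)}

theorem mem_bg {t : ℕ} {i : Fin (2 * t + 2 + 1)} {v : Fin (2 * t + 5)} : v ∈ bg t i ↔
    (i.val = 0 ∧ v.val ≤ 2) ∨ (i.val = 1 ∧ (v.val ≤ 1 ∨ v.val = 3)) ∨
      (i.val = 2 ∧ (v.val = 2 ∨ v.val = 4)) ∨ (3 ≤ i.val ∧ v.val = i.val + 2) ∨
      (3 ≤ i.val ∧ i.val < 3 + t ∧ v.val = 3) ∨ (3 + t ≤ i.val ∧ v.val = 4) := by
  unfold bg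
  split_ifs <;>
    simp only [Finset.mem_insert, Finset.mem_singleton, Fin.ext_iff, vx_val, vc_val] <;> omega

theorem Gt_tw (t : ℕ) : TwLE (Gt t) 2 := by
  have hp : ∀ u, u ≠ 0 → tp t u < u := fun u hu => by unfold tp; split_ifs <;> omega
  have hroot : ∀ v : Fin (2 * t + 5), ∃ r : Fin (2 * t + 2 + 1), v ∈ bg t r ∧
      ∀ i, v ∈ bg t i → i = r ∨ (parG (tp t)).Adj i r := by
    intro v
    have hv := v.2
    refine ⟨⟨v.val - 2, by omega⟩, by rw [mem_bg]; simp only; omega, fun i hi => ?_⟩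
    rw [mem_bg] at hi
    by_cases h : i.val = v.val - 2
    · exact Or.inl (Fin.ext h)
    · refine Or.inr (Or.inl ⟨by omega, ?_, hp _ (by omega)⟩)
      simp only [tp]
      split_ifs <;> omega
  refine ⟨2 * t + 2 + 1, parG (tp t), bg t, parG_isTree _ hp, fun i => ?_,
    fun v => (hroot v).imp fun _ h => h.1, fun u v huv => ?_, fun v => ?_⟩
  · unfold bg
    split_ifs
    · exact Finset.card_le_three
    · exact Finset.card_le_three
    · exact Finset.card_le_two.trans (by norm_num)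
    · exact Finset.card_le_two.trans (by norm_num)
    · exact Finset.card_le_two.trans (by norm_num)
  · have hu := u.2
    have hv := v.2
    simp only [Gt_adj, gA] at huv
    refine ⟨⟨max u.val v.val - 2, by omega⟩, ?_, ?_⟩ <;> rw [mem_bg] <;> simp only <;> omega
  · obtain ⟨r, hr, hr'⟩ := hroot v
    exact induce_connected_of_root _ _ r hr hr'

theorem Gt_not_tw (t : ℕ) : ¬ TwLE (Gt t) 1 := by
  rintro ⟨m, T, B, hT, hcard, -, hadj, hconn⟩
  obtain ⟨i, hi0, hi1⟩ := hadj (vc t 0) (vc t 1) (by simp [Gt_adj, gA, vc_val])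
  obtain ⟨j, hj1, hj2⟩ := hadj (vc t 1) (vc t 2) (by simp [Gt_adj, gA, vc_val])
  obtain ⟨l, hl0, hl2⟩ := hadj (vc t 0) (vc t 2) (by simp [Gt_adj, gA, vc_val])
  obtain ⟨x, h0, h1, h2⟩ := helly3 T hT.isAcyclic _ _ _ (hconn (vc t 0)) (hconn (vc t 1))
    (hconn (vc t 2)) i j l hi0 hi1 hj1 hj2 hl0 hl2
  have h3 : 2 < (B x).card := by
    rw [Finset.two_lt_card_iff]
    exact ⟨_, _, _, h0, h1, h2, by simp [Fin.ext_iff, vc_val], by simp [Fin.ext_iff, vc_val],
      by simp [Fin.ext_iff, vc_val]⟩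
  have := hcard x
  omega

theorem mem_exp_inl {V : Type} {G : SimpleGraph V} (e : G.edgeSet) (a : V) :
    (Sum.inl a : V ⊕ G.edgeSet) ∈ Sum.inl '' {v | v ∈ (e : Sym2 V)} ∪ {Sum.inr e} ↔
      a ∈ (e : Sym2 V) := by simp

theorem mem_exp_inr {V : Type} {G : SimpleGraph V} (e d : G.edgeSet) :
    (Sum.inr d : V ⊕ G.edgeSet) ∈ Sum.inl '' {v | v ∈ (e : Sym2 V)} ∪ {Sum.inr e} ↔ d = e := by
  simp

theorem sigma_le_of_indep {V : Type} (G : SimpleGraph V) (A : Finset V) (E : Finset G.edgeSet)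
    (hA : ∀ u v, G.Adj u v → u ∈ A → v ∉ A) (hE : ∀ e, e ∈ E ↔ ∀ v ∈ (e : Sym2 V), v ∉ A) :
    sigma (expansion G) ≤ A.card + E.card := by
  refine Nat.sInf_le ⟨A.disjSum E, ?_, Finset.card_disjSum _ _⟩
  rintro _ ⟨e, rfl⟩
  by_cases he : e ∈ E
  · refine ⟨Sum.inr e, ⟨Finset.inr_mem_disjSum.2 he, (mem_exp_inr e e).2 rfl⟩, ?_⟩
    rintro (a | d) ⟨ha, hb⟩
    · exact absurd (Finset.inl_mem_disjSum.1 ha) ((hE e).1 he a ((mem_exp_inl e a).1 hb))
    · rw [(mem_exp_inr e d).1 hb]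
  · have h1 := mt (hE e).2 he
    push Not at h1
    obtain ⟨v, hv, hvA⟩ := h1
    refine ⟨Sum.inl v, ⟨Finset.inl_mem_disjSum.2 hvA, (mem_exp_inl e v).2 hv⟩, ?_⟩
    rintro (a | d) ⟨ha, hb⟩
    · by_contra hne
      have h2 : a ≠ v := fun h => hne (by rw [h])
      have h3 : (e : Sym2 V) = s(a, v) :=
        (Sym2.mem_and_mem_iff h2).1 ⟨(mem_exp_inl e a).1 hb, hv⟩
      have h4 : s(a, v) ∈ G.edgeSet := h3 ▸ e.2
      exact hA a v h4 (Finset.inl_mem_disjSum.1 ha) hvA
    · rw [(mem_exp_inr e d).1 hb] at ha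
      exact absurd (Finset.inr_mem_disjSum.1 ha) he

theorem Gt_sigma (t : ℕ) : sigma (expansion (Gt t)) ≤ 5 := by
  have a01 : s(vc t 0, vc t 1) ∈ (Gt t).edgeSet := by simp [Gt_adj, gA, vc_val]
  have a02 : s(vc t 0, vc t 2) ∈ (Gt t).edgeSet := by simp [Gt_adj, gA, vc_val]
  have a12 : s(vc t 1, vc t 2) ∈ (Gt t).edgeSet := by simp [Gt_adj, gA, vc_val]
  have h := sigma_le_of_indep (Gt t) {vc t 3, vc t 4} {⟨_, a01⟩, ⟨_, a02⟩, ⟨_, a12⟩}
    (fun u v huv => by
      simp only [Gt_adj, gA] at huv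
      simp only [Finset.mem_insert, Finset.mem_singleton, Fin.ext_iff, vc_val]
      omega)
    (by
      rintro ⟨e, he⟩
      induction e using Sym2.ind with
      | h u v =>
        simp only [mem_edgeSet, Gt_adj, gA] at he
        simp only [Finset.mem_insert, Finset.mem_singleton, Subtype.ext_iff, Sym2.eq_iff,
          Sym2.mem_iff, forall_eq_or_imp, forall_eq]
        simp only [Fin.ext_iff, vc_val]
        omega)
  exact h.trans (add_le_add Finset.card_le_two Finset.card_le_three)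

/-- The triple attached to `(i, j, l)`. -/
def trp {t m n : ℕ} (hn : t + 2 * m ≤ n) (p : Fin t × Fin m × Fin m) : Finset (Fin n) :=
  {⟨p.1.val, by omega⟩, ⟨t + p.2.1.val, by omega⟩, ⟨t + m + p.2.2.val, by omega⟩}

theorem mem_trp {t m n : ℕ} (hn : t + 2 * m ≤ n) {p : Fin t × Fin m × Fin m} {x : Fin n} :
    x ∈ trp hn p ↔ x.val = p.1.val ∨ x.val = t + p.2.1.val ∨ x.val = t + m + p.2.2.val := by
  simp [trp, Fin.ext_iff]

theorem trp_inj {t m n : ℕ} (hn : t + 2 * m ≤ n) : Function.Injective (trp hn) := by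
  rintro ⟨i, j, l⟩ ⟨i', j', l'⟩ h
  have h1 : (⟨i.val, by omega⟩ : Fin n) ∈ trp hn (i', j', l') := by
    rw [← h, mem_trp]; simp
  have h2 : (⟨t + j.val, by omega⟩ : Fin n) ∈ trp hn (i', j', l') := by
    rw [← h, mem_trp]; simp
  have h3 : (⟨t + m + l.val, by omega⟩ : Fin n) ∈ trp hn (i', j', l') := by
    rw [← h, mem_trp]; simp
  rw [mem_trp] at h1 h2 h3
  simp only at h1 h2 h3
  have := i.2; have := i'.2; have := j.2; have := j'.2; have := l.2; have := l'.2
  refine Prod.ext (Fin.ext ?_) (Prod.ext (Fin.ext ?_) (Fin.ext ?_)) <;> simp only <;> omega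

theorem Gt_free {t m n : ℕ} (hn : t + 2 * m ≤ n) :
    ¬ HasCopy (expansion (Gt t)) (Finset.univ.image (trp hn)) := by
  classical
  rintro ⟨φ, hφ, hc⟩
  have key : ∀ u v (h : (Gt t).Adj u v),
      (¬ ((φ (Sum.inl u)).val < t ∧ (φ (Sum.inl v)).val < t) ∧
        ¬ (t + m ≤ (φ (Sum.inl u)).val ∧ t + m ≤ (φ (Sum.inl v)).val) ∧
        ¬ (t ≤ (φ (Sum.inl u)).val ∧ (φ (Sum.inl u)).val < t + m ∧
          t ≤ (φ (Sum.inl v)).val ∧ (φ (Sum.inl v)).val < t + m)) ∧
      ((φ (Sum.inl u)).val < t ∨ (φ (Sum.inl v)).val < t ∨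
        (φ (Sum.inr ⟨s(u, v), h⟩)).val < t) := by
    intro u v h
    obtain ⟨s, hs, e⟩ := hc _ ⟨⟨s(u, v), h⟩, rfl⟩
    obtain ⟨⟨i, j, l⟩, -, rfl⟩ := Finset.mem_image.1 hs
    have hi := i.2
    have hj := j.2
    have hl := l.2
    have hu : φ (Sum.inl u) ∈ trp hn (i, j, l) := by
      rw [← Finset.mem_coe, e]
      exact Set.mem_image_of_mem _ ((mem_exp_inl _ u).2 (Sym2.mem_mk_left u v))
    have hv : φ (Sum.inl v) ∈ trp hn (i, j, l) := by
      rw [← Finset.mem_coe, e]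
      exact Set.mem_image_of_mem _ ((mem_exp_inl _ v).2 (Sym2.mem_mk_right u v))
    have hne : (φ (Sum.inl u)).val ≠ (φ (Sum.inl v)).val := fun h' =>
      h.ne (Sum.inl_injective (hφ (Fin.ext h')))
    rw [mem_trp] at hu hv
    simp only at hu hv
    refine ⟨by omega, ?_⟩
    have h1 : (⟨i.val, by omega⟩ : Fin n) ∈ trp hn (i, j, l) := by rw [mem_trp]; simp
    rw [← Finset.mem_coe, e] at h1
    obtain ⟨a | d, ha, hb⟩ := h1
    · rcases Sym2.mem_iff.1 ((mem_exp_inl _ a).1 ha) with rfl | rfl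
      · exact Or.inl (by rw [hb]; exact hi)
      · exact Or.inr (Or.inl (by rw [hb]; exact hi))
    · rw [(mem_exp_inr _ d).1 ha] at hb
      exact Or.inr (Or.inr (by rw [hb]; exact hi))
  have star : ∀ (x z : Fin (2 * t + 5)) (L : Fin t → Fin (2 * t + 5)), Function.Injective L →
      (∀ i, L i ≠ x) → (Gt t).Adj x z → (∀ i, (Gt t).Adj z (L i)) →
      ¬ (φ (Sum.inl x)).val < t := by
    intro x z L hL hLx hxz hadj hx
    have hz : ¬ (φ (Sum.inl z)).val < t := fun hz => (key x z hxz).1.1 ⟨hx, hz⟩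
    let ψ : Option (Fin t) → Fin (2 * t + 5) ⊕ (Gt t).edgeSet := fun o => o.elim (Sum.inl x)
      fun i => if (φ (Sum.inl (L i))).val < t then Sum.inl (L i)
        else Sum.inr ⟨s(z, L i), hadj i⟩
    have hψ : ∀ o, (φ (ψ o)).val < t := by
      rintro (_ | i)
      · exact hx
      · simp only [ψ, Option.elim]
        split_ifs with h
        · exact h
        · exact ((key z (L i) (hadj i)).2.resolve_left hz).resolve_left h
    have hinj : Function.Injective ψ := by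
      rintro (_ | i) (_ | j) h <;> simp only [ψ, Option.elim] at h
      · rfl
      · split_ifs at h
        exact absurd (Sum.inl_injective h).symm (hLx j)
      · split_ifs at h
        exact absurd (Sum.inl_injective h) (hLx i)
      · split_ifs at h
        · rw [hL (Sum.inl_injective h)]
        · have h1 := congrArg Subtype.val (Sum.inr_injective h)
          rw [hL (Sym2.congr_right.1 h1)]
    have := Fintype.card_le_of_injective (fun o => (⟨_, hψ o⟩ : Fin t)) fun o o' h =>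
      hinj (hφ (Fin.ext (Fin.mk.inj h)))
    simp at this
  have s3 : ∀ x : Fin (2 * t + 5), x.val ≤ 1 → ¬ (φ (Sum.inl x)).val < t := fun x hx =>
    star x (vc t 3) (fun i => vx t (5 + i.val) (by omega))
      (fun i j h => Fin.ext (by simpa [Fin.ext_iff, vx_val, vc_val] using h))
      (fun i h => by simp only [Fin.ext_iff, vx_val] at h; omega)
      (by
        have h5 : x.val = 0 ∨ x.val = 1 := by omega
        rcases h5 with h5 | h5 <;> simp only [Gt_adj, gA, vc_val, h5] <;> simp)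
      (fun i => by simp [Gt_adj, gA, vx_val, vc_val])
  have s4 := star (vc t 2) (vc t 4) (fun i => vx t (5 + t + i.val) (by omega))
    (fun i j h => Fin.ext (by simpa [Fin.ext_iff, vx_val, vc_val] using h))
    (fun i h => by simp only [Fin.ext_iff, vx_val, vc_val] at h; omega)
    (by simp [Gt_adj, gA, vc_val])
    (fun i => by simp [Gt_adj, gA, vx_val, vc_val])
  have h0 := s3 (vc t 0) (by simp [vc_val])
  have h1 := s3 (vc t 1) (by simp [vc_val])
  have h01 := (key (vc t 0) (vc t 1) (by simp [Gt_adj, gA, vc_val])).1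
  have h02 := (key (vc t 0) (vc t 2) (by simp [Gt_adj, gA, vc_val])).1
  have h12 := (key (vc t 1) (vc t 2) (by simp [Gt_adj, gA, vc_val])).1
  omega

theorem Gt_lower {t m n : ℕ} (hn : t + 2 * m ≤ n) : t * m ^ 2 ≤ ex3 n (expansion (Gt t)) := by
  classical
  apply le_csSup
  · refine ⟨Fintype.card (Finset (Fin n)), ?_⟩
    rintro c ⟨H, -, -, rfl⟩
    exact Finset.card_le_univ H
  · refine ⟨_, fun h hh => ?_, Gt_free hn, ?_⟩
    · obtain ⟨⟨i, j, l⟩, -, rfl⟩ := Finset.mem_image.1 hh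
      have := i.2; have := j.2; have := l.2
      rw [trp, Finset.card_eq_three]
      refine ⟨_, _, _, ?_, ?_, ?_, rfl⟩ <;> simp only [ne_eq, Fin.mk.injEq] <;> omega
    · rw [Finset.card_image_of_injective _ (trp_inj hn)]
      simp [sq]

theorem Gt_main (K : ℝ) : ∀ᶠ n : ℕ in atTop,
    K * (n.choose 2 : ℝ) ≤ (ex3 n (expansion (Gt ⌈8 * K⌉₊)) : ℝ) := by
  have hK := Nat.le_ceil (8 * K)
  generalize ⌈8 * K⌉₊ = t at hK ⊢
  filter_upwards [eventually_ge_atTop (2 * t + 2)] with n hn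
  have h1 := Gt_lower (t := t) (m := (n - t) / 2) (n := n) (by omega)
  have h2 : n ≤ 4 * ((n - t) / 2) := by omega
  generalize (n - t) / 2 = m at h1 h2
  have h1' : (t : ℝ) * (m : ℝ) ^ 2 ≤ (ex3 n (expansion (Gt t)) : ℝ) := by exact_mod_cast h1
  have h2' : (n : ℝ) ≤ 4 * m := by exact_mod_cast h2
  have h3 : (0 : ℝ) ≤ n := Nat.cast_nonneg n
  have h4 : (n.choose 2 : ℝ) ≤ 8 * (m : ℝ) ^ 2 := by
    rw [Nat.cast_choose_two]
    nlinarith
  have h5 : (0 : ℝ) ≤ (n.choose 2 : ℝ) := Nat.cast_nonneg _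
  have h6 : (0 : ℝ) ≤ t := Nat.cast_nonneg t
  calc K * (n.choose 2 : ℝ) ≤ t / 8 * (n.choose 2 : ℝ) :=
        mul_le_mul_of_nonneg_right (by linarith) h5
    _ ≤ t / 8 * (8 * (m : ℝ) ^ 2) := mul_le_mul_of_nonneg_left h4 (by linarith)
    _ = t * (m : ℝ) ^ 2 := by ring
    _ ≤ _ := h1'

end Pool.Agent.Lib.MP_7c3aa9_co
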