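import Mathlib

set_option autoImplicit false

namespace Pool.Agent.Lib.MP_7c3aa9_co

open SimpleGraph

/-- Helly property for three connected node sets of an acyclic graph. -/
theorem helly3 {V : Type*} (T : SimpleGraph V) (hT : T.IsAcyclic) (A B C : Set V)
    (hA : (T.induce A).Connected) (hB : (T.induce B).Connected) (hC : (T.induce C).Connected)
    (i j l : V) (hiA : i ∈ A) (hiB : i ∈ B) (hjB : j ∈ B) (hjC : j ∈ C) (hlA : l ∈ A)
    (hlC : l ∈ C) : ∃ x, x ∈ A ∧ x ∈ B ∧ x ∈ C := by
  classical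
  by_contra hno
  push Not at hno
  have key : ∀ (S : Set V), (T.induce S).Connected → ∀ u v, u ∈ S → v ∈ S →
      ∃ p : T.Walk u v, ∀ x ∈ p.support, x ∈ S := by
    intro S hS u v hu hv
    obtain ⟨p⟩ := hS.preconnected ⟨u, hu⟩ ⟨v, hv⟩
    refine ⟨p.map (Embedding.induce S).toHom, ?_⟩
    intro x hx
    have hx' : x ∈ (p.map (Embedding.induce S).toHom).support := hx
    rw [Walk.support_map] at hx'
    obtain ⟨y, -, rfl⟩ := List.mem_map.1 hx'
    exact y.2
  obtain ⟨pB, hpB⟩ := key B hB j i hjB hiB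
  obtain ⟨pA, hpA⟩ := key A hA i l hiA hlA
  obtain ⟨pC, hpC⟩ := key C hC j l hjC hlC
  have heq : (pB.append pA).bypass = pC.bypass := by
    have := (hT.subsingleton_path j l).elim ⟨_, (pB.append pA).bypass_isPath⟩
      ⟨_, pC.bypass_isPath⟩
    exact congrArg Subtype.val this
  have hlB : l ∉ B := fun h => hno l hlA h hlC
  obtain ⟨d, hd, hd1, hd2⟩ := pC.bypass.exists_boundary_dart B hjB hlB
  have hdC : d.fst ∈ C :=
    hpC _ (pC.support_bypass_subset_support (pC.bypass.dart_fst_mem_support_of_mem_darts hd))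
  have hedge : d.edge ∈ (pB.append pA).edges := by
    apply (pB.append pA).edges_bypass_subset_edges
    rw [heq]
    exact List.mem_map.2 ⟨d, hd, rfl⟩
  rw [Walk.edges_append, List.mem_append] at hedge
  rcases hedge with h | h
  · exact hd2 (hpB _ (pB.snd_mem_support_of_mem_edges h))
  · exact hno _ (hpA _ (pA.fst_mem_support_of_mem_edges h)) hd1 hdC

/-- A node set with a root adjacent to all its other nodes induces a connected graph. -/
theorem induce_connected_of_root {V : Type*} (T : SimpleGraph V) (S : Set V) (r : V) (hr : r ∈ S)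
    (h : ∀ i ∈ S, i = r ∨ T.Adj i r) : (T.induce S).Connected := by
  have hreach : ∀ x : S, (T.induce S).Reachable x ⟨r, hr⟩ := by
    rintro ⟨x, hx⟩
    rcases h x hx with rfl | hadj
    · exact Reachable.refl _
    · exact Adj.reachable (by simpa using hadj)
  have : Nonempty S := ⟨⟨r, hr⟩⟩
  exact ⟨fun x y => (hreach x).trans (hreach y).symm⟩

/-- Directed edge list of the graph `G`. -/
def gE (u v : ℕ) : Bool :=
  (u == 0 && v == 1) || (u == 0 && v == 2) || (u == 1 && v == 2) || (u == 0 && v == 3) ||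
  (u == 1 && v == 3) || (u == 2 && v == 4) || (u == 3 && 5 ≤ v && v ≤ 13) || (u == 4 && 14 ≤ v)

/-- The graph: triangle 0,1,2; vertex 3 joined to 0 and 1; vertex 4 joined to 2; nine leaves
at each of 3 and 4. -/
def G : SimpleGraph (Fin 23) where
  Adj u v := (gE u v || gE v u) = true
  symm := ⟨fun u v h => by rw [Bool.or_comm]; exact h⟩
  loopless := ⟨by decide⟩

instance : DecidableRel G.Adj := fun u v => inferInstanceAs (Decidable ((gE u v || gE v u) = true))

/-- Directed edge list of the decomposition tree. -/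
def tE (u v : ℕ) : Bool :=
  (u == 0 && v == 1) || (u == 0 && v == 2) || (u == 1 && 3 ≤ v && v ≤ 11) || (u == 2 && 12 ≤ v)

/-- The decomposition tree. -/
def T : SimpleGraph (Fin 21) where
  Adj u v := (tE u v || tE v u) = true
  symm := ⟨fun u v h => by rw [Bool.or_comm]; exact h⟩
  loopless := ⟨by decide⟩

instance : DecidableRel T.Adj := fun u v => inferInstanceAs (Decidable ((tE u v || tE v u) = true))

/-- The bags. -/
def bag (i : Fin 21) : Finset (Fin 23) :=
  if i = 0 then {0, 1, 2} else if i = 1 then {0, 1, 3} else if i = 2 then {2, 4}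
  else if i.val ≤ 11 then {3, ⟨i.val + 2, by omega⟩} else {4, ⟨i.val + 2, by omega⟩}

theorem T_isTree : T.IsTree := by
  rw [isTree_iff_connected_and_card]
  constructor
  · have hreach : ∀ x : Fin 21, T.Reachable x 0 := by
      have h : ∀ x : Fin 21, x = 0 ∨ T.Adj x 0 ∨ ∃ y, T.Adj x y ∧ T.Adj y 0 := by decide +kernel
      intro x
      rcases h x with rfl | h | ⟨y, h1, h2⟩
      · exact Reachable.refl _
      · exact h.reachable
      · exact h1.reachable.trans h2.reachable
    exact ⟨fun x y => (hreach x).trans (hreach y).symm⟩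
  · have h1 : T.edgeFinset.card = 20 := by
      have h2 := T.sum_degrees_eq_twice_card_edges
      have h3 : ∑ v, T.degree v = 40 := by decide +kernel
      omega
    rw [Nat.card_eq_fintype_card, ← edgeFinset_card, h1]
    simp

theorem tw_le : ∃ (m : ℕ) (T : SimpleGraph (Fin m)) (B : Fin m → Finset (Fin 23)),
      T.IsTree ∧ (∀ i, (B i).card ≤ 3) ∧ (∀ v, ∃ i, v ∈ B i) ∧
      (∀ u v, G.Adj u v → ∃ i, u ∈ B i ∧ v ∈ B i) ∧
      (∀ v, (T.induce {i | v ∈ B i}).Connected) := by
  refine ⟨21, T, bag, T_isTree, by decide +kernel, by decide +kernel, by decide +kernel, ?_⟩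
  have h : ∀ v : Fin 23, ∃ r : Fin 21, v ∈ bag r ∧ ∀ i, v ∈ bag i → i = r ∨ T.Adj i r := by
    decide +kernel
  intro v
  obtain ⟨r, hr, hr'⟩ := h v
  exact induce_connected_of_root T _ r hr hr'

theorem tw_not_le : ¬ (∃ (m : ℕ) (T : SimpleGraph (Fin m)) (B : Fin m → Finset (Fin 23)),
      T.IsTree ∧ (∀ i, (B i).card ≤ 2) ∧ (∀ v, ∃ i, v ∈ B i) ∧
      (∀ u v, G.Adj u v → ∃ i, u ∈ B i ∧ v ∈ B i) ∧
      (∀ v, (T.induce {i | v ∈ B i}).Connected)) := by
  rintro ⟨m, T, B, hT, hcard, -, hadj, hconn⟩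
  obtain ⟨i, hi0, hi1⟩ := hadj 0 1 (by decide)
  obtain ⟨j, hj1, hj2⟩ := hadj 1 2 (by decide)
  obtain ⟨l, hl0, hl2⟩ := hadj 0 2 (by decide)
  obtain ⟨x, h0, h1, h2⟩ := helly3 T hT.isAcyclic _ _ _ (hconn 0) (hconn 1) (hconn 2) i j l
    hi0 hi1 hj1 hj2 hl0 hl2
  have hsub : ({0, 1, 2} : Finset (Fin 23)) ⊆ B x := by
    intro y hy
    simp only [Finset.mem_insert, Finset.mem_singleton] at hy
    rcases hy with rfl | rfl | rfl
    · exact h0
    · exact h1
    · exact h2
  have := Finset.card_le_card hsub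
  have h3 : ({0, 1, 2} : Finset (Fin 23)).card = 3 := by decide
  have := hcard x
  omega

theorem sigma_le : sInf {c : ℕ | ∃ S : Finset (Fin 23),
          (∀ u ∈ S, ∀ v ∈ S, ¬ G.Adj u v) ∧
          c = S.card + {e ∈ G.edgeSet | ∀ v ∈ e, v ∉ S}.ncard} ≤ 5 := by
  have hsub : {e ∈ G.edgeSet | ∀ v ∈ e, v ∉ ({3, 4} : Finset (Fin 23))} ⊆
      ({s(0, 1), s(0, 2), s(1, 2)} : Set (Sym2 (Fin 23))) := by
    rintro e ⟨he, h⟩
    induction e using Sym2.ind with
    | h u v =>
      have hu := h u (Sym2.mem_mk_left u v)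
      have hv := h v (Sym2.mem_mk_right u v)
      have key : ∀ u v : Fin 23, G.Adj u v → u ∉ ({3, 4} : Finset (Fin 23)) →
          v ∉ ({3, 4} : Finset (Fin 23)) →
          s(u, v) = s(0, 1) ∨ s(u, v) = s(0, 2) ∨ s(u, v) = s(1, 2) := by decide +kernel
      simpa using key u v he hu hv
  have h3 : ({s(0, 1), s(0, 2), s(1, 2)} : Set (Sym2 (Fin 23))).ncard ≤ 3 := by
    refine (Set.ncard_insert_le _ _).trans ?_
    have := Set.ncard_insert_le (s(0, 2) : Sym2 (Fin 23)) {s(1, 2)}
    rw [Set.ncard_singleton] at this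
    omega
  have h4 := (Set.ncard_le_ncard hsub (Set.toFinite _)).trans h3
  refine le_trans (Nat.sInf_le ⟨{3, 4}, by decide, rfl⟩) ?_
  have h2 : ({3, 4} : Finset (Fin 23)).card = 2 := by decide
  omega

/-- The part (0, 1 or 2) of a point of `Fin (9 + 2 * m)`. -/
def part (m : ℕ) (x : ℕ) : ℕ := if x < 9 then 0 else if x < 9 + m then 1 else 2

/-- The triple attached to `(i, j, l)`. -/
def triple (m : ℕ) (t : Fin 9 × Fin m × Fin m) : Finset (Fin (9 + 2 * m)) :=
  {⟨t.1.val, by omega⟩, ⟨9 + t.2.1.val, by omega⟩, ⟨9 + m + t.2.2.val, by omega⟩}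

/-- The complete three-partite triple system with parts of sizes `9, m, m`. -/
def H (m : ℕ) : Finset (Finset (Fin (9 + 2 * m))) := Finset.univ.image (triple m)

theorem mem_triple {m : ℕ} {t : Fin 9 × Fin m × Fin m} {x : Fin (9 + 2 * m)} :
    x ∈ triple m t ↔ x.val = t.1.val ∨ x.val = 9 + t.2.1.val ∨ x.val = 9 + m + t.2.2.val := by
  simp [triple, Fin.ext_iff]

theorem triple_inj (m : ℕ) : Function.Injective (triple m) := by
  rintro ⟨i, j, l⟩ ⟨i', j', l'⟩ h
  have h1 : (⟨i.val, by omega⟩ : Fin (9 + 2 * m)) ∈ triple m (i', j', l') := by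
    rw [← h, mem_triple]; simp
  have h2 : (⟨9 + j.val, by omega⟩ : Fin (9 + 2 * m)) ∈ triple m (i', j', l') := by
    rw [← h, mem_triple]; simp
  have h3 : (⟨9 + m + l.val, by omega⟩ : Fin (9 + 2 * m)) ∈ triple m (i', j', l') := by
    rw [← h, mem_triple]; simp
  rw [mem_triple] at h1 h2 h3
  simp only at h1 h2 h3
  have := i.2; have := i'.2; have := j.2; have := j'.2; have := l.2; have := l'.2
  refine Prod.ext (Fin.ext ?_) (Prod.ext (Fin.ext ?_) (Fin.ext ?_)) <;> simp only <;> omega

theorem card_H (m : ℕ) : (H m).card = 9 * m ^ 2 := by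
  rw [H, Finset.card_image_of_injective _ (triple_inj m)]
  simp [sq]

theorem H_three (m : ℕ) : ∀ h ∈ H m, h.card = 3 := by
  intro h hh
  obtain ⟨⟨i, j, l⟩, -, rfl⟩ := Finset.mem_image.1 hh
  have := i.2; have := j.2; have := l.2
  rw [triple, Finset.card_eq_three]
  refine ⟨_, _, _, ?_, ?_, ?_, rfl⟩ <;> simp only [ne_eq, Fin.mk.injEq] <;> omega

theorem H_part {m : ℕ} {h : Finset (Fin (9 + 2 * m))} (hh : h ∈ H m) {x y : Fin (9 + 2 * m)}
    (hx : x ∈ h) (hy : y ∈ h) (hxy : x ≠ y) : part m x ≠ part m y := by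
  obtain ⟨⟨i, j, l⟩, -, rfl⟩ := Finset.mem_image.1 hh
  have := i.2; have := j.2; have := l.2
  rw [mem_triple] at hx hy
  have hxy' : x.val ≠ y.val := fun h => hxy (Fin.ext h)
  simp only at hx hy
  unfold part
  split_ifs <;> omega

theorem H_small {m : ℕ} {h : Finset (Fin (9 + 2 * m))} (hh : h ∈ H m) :
    ∃ x ∈ h, x.val < 9 := by
  obtain ⟨⟨i, j, l⟩, -, rfl⟩ := Finset.mem_image.1 hh
  exact ⟨⟨i.val, by omega⟩, by rw [mem_triple]; simp, i.2⟩

theorem H_free (m : ℕ) : ¬ (∃ (φ : Fin 23 → Fin (9 + 2 * m))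
    (w : Fin 23 → Fin 23 → Fin (9 + 2 * m)),
              Function.Injective φ ∧
              (∀ u v, G.Adj u v →
                (∀ x, w u v ≠ φ x) ∧ ({φ u, φ v, w u v} : Finset (Fin (9 + 2 * m))) ∈ H m) ∧
              (∀ u v u' v', G.Adj u v → G.Adj u' v' → w u v = w u' v' →
                (u = u' ∧ v = v') ∨ (u = v' ∧ v = u'))) := by
  rintro ⟨φ, w, hφ, hw, hw'⟩
  have hpart : ∀ u v, G.Adj u v → part m (φ u) ≠ part m (φ v) := by
    intro u v huv
    exact H_part (hw u v huv).2 (by simp) (by simp) (fun h => huv.ne (hφ h))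
  have star : ∀ (x z : Fin 23) (L : Finset (Fin 23)), L.card = 9 → x ∉ L → z ∉ L →
      (∀ y ∈ L, G.Adj z y) → (φ x).val < 9 → ¬ (φ z).val < 9 → False := by
    intro x z L hL hxL hzL hadj hx hz
    let g : Fin 23 → ℕ := fun y => if (φ y).val < 9 then (φ y).val else (w z y).val
    have hg : ∀ y ∈ insert x L, g y ∈ Finset.range 9 := by
      intro y hy
      rw [Finset.mem_range]
      simp only [g]
      split_ifs with h
      · exact h
      · rcases Finset.mem_insert.1 hy with rfl | hy
        · exact absurd hx h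
        · obtain ⟨a, ha, ha9⟩ := H_small (hw z y (hadj y hy)).2
          simp only [Finset.mem_insert, Finset.mem_singleton] at ha
          rcases ha with rfl | rfl | rfl
          · exact absurd ha9 hz
          · exact absurd ha9 h
          · exact ha9
    have hinj : Set.InjOn g (insert x L : Finset (Fin 23)) := by
      intro y hy y' hy' hyy
      have hy1 : y = x ∨ y ∈ L := Finset.mem_insert.1 hy
      have hy2 : y' = x ∨ y' ∈ L := Finset.mem_insert.1 hy'
      simp only [g] at hyy
      split_ifs at hyy with h1 h2 h2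
      · exact hφ (Fin.ext hyy)
      · rcases hy2 with rfl | hy2
        · exact absurd hx h2
        · exact absurd (Fin.ext hyy).symm ((hw z y' (hadj y' hy2)).1 y)
      · rcases hy1 with rfl | hy1
        · exact absurd hx h1
        · exact absurd (Fin.ext hyy) ((hw z y (hadj y hy1)).1 y')
      · rcases hy1 with rfl | hy1
        · exact absurd hx h1
        · rcases hy2 with rfl | hy2
          · exact absurd hx h2
          · rcases hw' z y z y' (hadj y hy1) (hadj y' hy2) (Fin.ext hyy) with h | h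
            · exact h.2
            · exact absurd (h.2 ▸ hy1) hzL
    have := Finset.card_le_card_of_injOn g hg hinj
    rw [Finset.card_insert_of_notMem hxL, hL, Finset.card_range] at this
    omega
  have h01 := hpart 0 1 (by decide)
  have h02 := hpart 0 2 (by decide)
  have h12 := hpart 1 2 (by decide)
  have h03 := hpart 0 3 (by decide)
  have h13 := hpart 1 3 (by decide)
  have h24 := hpart 2 4 (by decide)
  by_cases h0 : (φ 0).val < 9
  · refine star 0 3 {5, 6, 7, 8, 9, 10, 11, 12, 13} (by decide) (by decide) (by decide)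
      (by decide) h0 ?_
    intro h3
    simp [part, h0, h3] at h03
  by_cases h1 : (φ 1).val < 9
  · refine star 1 3 {5, 6, 7, 8, 9, 10, 11, 12, 13} (by decide) (by decide) (by decide)
      (by decide) h1 ?_
    intro h3
    simp [part, h1, h3] at h13
  by_cases h2 : (φ 2).val < 9
  · refine star 2 4 {14, 15, 16, 17, 18, 19, 20, 21, 22} (by decide) (by decide) (by decide)
      (by decide) h2 ?_
    intro h4
    simp [part, h2, h4] at h24
  unfold part at h01 h02 h12
  split_ifs at h01 h02 h12 <;> omega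

end Pool.Agent.Lib.MP_7c3aa9_co
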