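import Pool.Agent.Lib.MP_7c3aa9_co.Main
import Pool.Agent.Lib.MP_7c3aa9_co.Defs

open Filter

namespace Pool.Agent.Lib.MP_7c3aa9_co

theorem own_connected : G.Connected := by
  have hreach : ∀ x : Fin 23, G.Reachable x 2 := by
    have h : ∀ x : Fin 23, x = 2 ∨ G.Adj x 2 ∨ (∃ y, G.Adj x y ∧ G.Adj y 2) ∨
      ∃ y z, G.Adj x y ∧ G.Adj y z ∧ G.Adj z 2 := by decide +kernel
    intro x
    rcases h x with rfl | h | ⟨y, h1, h2⟩ | ⟨y, z, h1, h2, h3⟩
    · exact SimpleGraph.Reachable.refl _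
    · exact h.reachable
    · exact h1.reachable.trans h2.reachable
    · exact h1.reachable.trans (h2.reachable.trans h3.reachable)
  exact ⟨fun x y => (hreach x).trans (hreach y).symm⟩

theorem own_sigma : sigma (expansion G) ≤ 5 := by
  classical
  have a01 : s(0, 1) ∈ G.edgeSet := by decide
  have a02 : s(0, 2) ∈ G.edgeSet := by decide
  have a12 : s(1, 2) ∈ G.edgeSet := by decide
  let S : Finset (Fin 23 ⊕ G.edgeSet) :=
    {Sum.inl 3, Sum.inl 4, Sum.inr ⟨_, a01⟩, Sum.inr ⟨_, a02⟩, Sum.inr ⟨_, a12⟩}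
  refine le_trans (Nat.sInf_le ⟨S, ?_, rfl⟩) Finset.card_le_five
  rintro t ⟨⟨e, he⟩, rfl⟩
  induction e using Sym2.ind with
  | h u v =>
    have key : ∀ u v : Fin 23, G.Adj u v →
        ((3 = u ∨ 3 = v) ∧ ¬ (4 = u ∨ 4 = v) ∧ s(u, v) ≠ s(0, 1) ∧ s(u, v) ≠ s(0, 2) ∧
          s(u, v) ≠ s(1, 2)) ∨
        ((4 = u ∨ 4 = v) ∧ ¬ (3 = u ∨ 3 = v) ∧ s(u, v) ≠ s(0, 1) ∧ s(u, v) ≠ s(0, 2) ∧
          s(u, v) ≠ s(1, 2)) ∨
        (¬ (3 = u ∨ 3 = v) ∧ ¬ (4 = u ∨ 4 = v) ∧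
          (s(u, v) = s(0, 1) ∨ s(u, v) = s(0, 2) ∨ s(u, v) = s(1, 2))) := by decide +kernel
    have hl : ∀ a : Fin 23, (Sum.inl a : Fin 23 ⊕ G.edgeSet) ∈ S ↔ a = 3 ∨ a = 4 := by
      intro a
      simp [S]
    have hr : ∀ d : G.edgeSet, (Sum.inr d : Fin 23 ⊕ G.edgeSet) ∈ S ↔
        d.1 = s(0, 1) ∨ d.1 = s(0, 2) ∨ d.1 = s(1, 2) := by
      intro d
      simp [S, Subtype.ext_iff]
    have tl : ∀ a : Fin 23, (Sum.inl a : Fin 23 ⊕ G.edgeSet) ∈
        Sum.inl '' {x | x ∈ ((⟨s(u, v), he⟩ : G.edgeSet) : Sym2 (Fin 23))} ∪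
          {Sum.inr ⟨s(u, v), he⟩} ↔ a = u ∨ a = v := by
      intro a
      simp
    have tr : ∀ d : G.edgeSet, (Sum.inr d : Fin 23 ⊕ G.edgeSet) ∈
        Sum.inl '' {x | x ∈ ((⟨s(u, v), he⟩ : G.edgeSet) : Sym2 (Fin 23))} ∪
          {Sum.inr ⟨s(u, v), he⟩} ↔ d = ⟨s(u, v), he⟩ := by
      intro d
      simp
    rcases key u v he with ⟨h1, h2, h3, h4, h5⟩ | ⟨h1, h2, h3, h4, h5⟩ | ⟨h1, h2, h3⟩
    · refine ⟨Sum.inl 3, ⟨(hl 3).2 (Or.inl rfl), (tl 3).2 h1⟩, ?_⟩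
      rintro (a | d) ⟨ha, hb⟩
      · rcases (hl a).1 ha with rfl | rfl
        · rfl
        · exact absurd ((tl 4).1 hb) h2
      · obtain rfl := (tr d).1 hb
        rcases (hr _).1 ha with h | h | h <;> contradiction
    · refine ⟨Sum.inl 4, ⟨(hl 4).2 (Or.inr rfl), (tl 4).2 h1⟩, ?_⟩
      rintro (a | d) ⟨ha, hb⟩
      · rcases (hl a).1 ha with rfl | rfl
        · exact absurd ((tl 3).1 hb) h2
        · rfl
      · obtain rfl := (tr d).1 hb
        rcases (hr _).1 ha with h | h | h <;> contradiction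
    · refine ⟨Sum.inr ⟨s(u, v), he⟩, ⟨(hr _).2 h3, (tr _).2 rfl⟩, ?_⟩
      rintro (a | d) ⟨ha, hb⟩
      · rcases (hl a).1 ha with rfl | rfl
        · exact absurd ((tl 3).1 hb) h1
        · exact absurd ((tl 4).1 hb) h2
      · rw [(tr d).1 hb]

theorem own_free (m n : ℕ) (hn : 9 + 2 * m ≤ n) :
    ¬ HasCopy (expansion G) ((H m).image fun h => h.map (Fin.castLEEmb hn)) := by
  classical
  rintro ⟨φ, hφ, hc⟩
  let ψ : Fin n → Fin (9 + 2 * m) := fun x => if h : x.val < 9 + 2 * m then ⟨x, h⟩ else ⟨0, by omega⟩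
  have hψ : ∀ y, ψ (Fin.castLE hn y) = y := fun y => by simp [ψ, y.2]
  have key : ∀ u v (h : G.Adj u v), ∃ t ∈ H m, ∀ x, x ∈ t.map (Fin.castLEEmb hn) ↔
      x = φ (Sum.inl u) ∨ x = φ (Sum.inl v) ∨ x = φ (Sum.inr ⟨s(u, v), h⟩) := by
    intro u v h
    obtain ⟨t, ht, e⟩ := hc _ ⟨⟨s(u, v), h⟩, rfl⟩
    obtain ⟨t', ht', rfl⟩ := Finset.mem_image.1 ht
    refine ⟨t', ht', fun x => ?_⟩
    rw [← Finset.mem_coe, e]
    simp only [Set.image_union, Set.image_image, Set.image_singleton, Set.mem_union, Set.mem_image,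
      Set.mem_ofPred_eq, Sym2.mem_iff, Set.mem_singleton_iff]
    constructor
    · rintro (⟨y, rfl | rfl, rfl⟩ | rfl) <;> simp
    · rintro (rfl | rfl | rfl)
      · exact Or.inl ⟨u, Or.inl rfl, rfl⟩
      · exact Or.inl ⟨v, Or.inr rfl, rfl⟩
      · exact Or.inr rfl
  have hrange : ∀ z, Fin.castLE hn (ψ (φ z)) = φ z := by
    have h1 : ∀ z, ∃ y, Fin.castLE hn y = φ z := by
      rintro (u | ⟨e, he⟩)
      · have hu : ∀ u : Fin 23, ∃ v, G.Adj u v := by decide +kernel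
        obtain ⟨v, h⟩ := hu u
        obtain ⟨t, -, ht⟩ := key u v h
        obtain ⟨y, -, hy⟩ := Finset.mem_map.1 ((ht _).2 (Or.inl rfl))
        exact ⟨y, hy⟩
      · induction e using Sym2.ind with
        | h u v =>
          obtain ⟨t, -, ht⟩ := key u v he
          obtain ⟨y, -, hy⟩ := Finset.mem_map.1 ((ht _).2 (Or.inr (Or.inr rfl)))
          exact ⟨y, hy⟩
    intro z
    obtain ⟨y, hy⟩ := h1 z
    rw [← hy, hψ]
  have hinj : Function.Injective fun z => ψ (φ z) := fun z z' h =>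
    hφ (by rw [← hrange z, ← hrange z']; exact congrArg _ h)
  refine H_free m ⟨fun u => ψ (φ (Sum.inl u)),
    fun u v => if h : G.Adj u v then ψ (φ (Sum.inr ⟨s(u, v), h⟩)) else ψ (φ (Sum.inl u)),
    fun u v h => Sum.inl_injective (hinj h), fun u v h => ⟨fun x hx => ?_, ?_⟩,
    fun u v u' v' h h' e => ?_⟩
  · beta_reduce at hx
    rw [dif_pos h] at hx
    exact Sum.inr_ne_inl (hinj hx)
  · obtain ⟨t, ht, ht'⟩ := key u v h
    beta_reduce
    rw [dif_pos h]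
    have : ({ψ (φ (Sum.inl u)), ψ (φ (Sum.inl v)), ψ (φ (Sum.inr ⟨s(u, v), h⟩))} :
        Finset (Fin (9 + 2 * m))) = t := by
      ext y
      rw [← Finset.mem_map' (Fin.castLEEmb hn) (s := t), ht']
      simp only [Finset.mem_insert, Finset.mem_singleton, Fin.castLEEmb_apply]
      have h2 : ∀ z, y = ψ (φ z) ↔ Fin.castLE hn y = φ z := fun z =>
        ⟨fun e => by rw [e, hrange], fun e => by rw [← e, hψ]⟩
      rw [h2, h2, h2]
    rw [this]
    exact ht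
  · beta_reduce at e
    rw [dif_pos h, dif_pos h'] at e
    have h1 := congrArg Subtype.val (Sum.inr_injective (hinj e))
    exact Sym2.eq_iff.1 h1

theorem own_lower (m n : ℕ) (hn : 9 + 2 * m ≤ n) : 9 * m ^ 2 ≤ ex3 n (expansion G) := by
  classical
  apply le_csSup
  · refine ⟨Fintype.card (Finset (Fin n)), ?_⟩
    rintro c ⟨H, -, -, rfl⟩
    exact Finset.card_le_univ H
  · refine ⟨_, fun h hh => ?_, own_free m n hn, ?_⟩
    · obtain ⟨t, ht, rfl⟩ := Finset.mem_image.1 hh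
      rw [Finset.card_map, H_three m t ht]
    · rw [Finset.card_image_of_injective _ (Finset.map_injective _), card_H]

theorem own_main : ∀ᶠ n : ℕ in atTop,
    ((sigma (expansion G) : ℝ) - 1 + 1 / 4) * (n.choose 2 : ℝ) ≤ (ex3 n (expansion G) : ℝ) := by
  filter_upwards [eventually_ge_atTop 400] with n hn
  have h1 := own_lower ((n - 9) / 2) n (by omega)
  have h2 : n ≤ 10 + 2 * ((n - 9) / 2) := by omega
  generalize (n - 9) / 2 = m at h1 h2
  have h1' : 9 * (m : ℝ) ^ 2 ≤ (ex3 n (expansion G) : ℝ) := by exact_mod_cast h1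
  have h2' : (n : ℝ) ≤ 10 + 2 * m := by exact_mod_cast h2
  have h3 : (400 : ℝ) ≤ n := by exact_mod_cast hn
  have h4 : (sigma (expansion G) : ℝ) ≤ 5 := by exact_mod_cast own_sigma
  have h5 : (0 : ℝ) ≤ (n.choose 2 : ℝ) := Nat.cast_nonneg _
  have h6 : ((sigma (expansion G) : ℝ) - 1 + 1 / 4) * (n.choose 2 : ℝ) ≤
      17 / 4 * (n.choose 2 : ℝ) := mul_le_mul_of_nonneg_right (by linarith) h5
  rw [Nat.cast_choose_two] at h6 ⊢
  nlinarith

end Pool.Agent.Lib.MP_7c3aa9_co
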